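import Pool.Agent.Helper84K9.GP.Count

/-! A set of integers without quadratic progressions which meets all the progressions with a
square difference. -/

set_option autoImplicit false

namespace Helper84K9.GP

open Finset

/-- the colour of `n` is zero -/
def hit {M L : ℕ} (g : Fin M → Fin L) (n : ℕ) : Prop := ∃ h : n < M, (g ⟨n, h⟩).val = 0

lemma quad_three (A B C : ℤ) (hC : 0 < C) (i j l : ℤ) (hij : i ≠ j) (hil : i ≠ l) (hjl : j ≠ l)
    (h1 : A + B * i + C * i ^ 2 = A + B * j + C * j ^ 2)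
    (h2 : A + B * i + C * i ^ 2 = A + B * l + C * l ^ 2) : False := by
  have e1 : (i - j) * (B + C * (i + j)) = 0 := by linear_combination h1
  have e2 : (i - l) * (B + C * (i + l)) = 0 := by linear_combination h2
  have e3 : B + C * (i + j) = 0 := by
    rcases mul_eq_zero.1 e1 with h | h
    · exact absurd (by linarith) hij
    · exact h
  have e4 : B + C * (i + l) = 0 := by
    rcases mul_eq_zero.1 e2 with h | h
    · exact absurd (by linarith) hil
    · exact h
  have e5 : C * (j - l) = 0 := by linear_combination e3 - e4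
  rcases mul_eq_zero.1 e5 with h | h
  · omega
  · exact hjl (by linarith)

lemma quad_distinct {β : Type} [DecidableEq β] (m : ℕ) (A B C : ℤ) (hC : 0 < C) (φ : Fin m → β)
    (hφ : ∀ i j : Fin m, φ i = φ j → A + B * (i.val : ℤ) + C * (i.val : ℤ) ^ 2 =
      A + B * (j.val : ℤ) + C * (j.val : ℤ) ^ 2) :
    m ≤ 2 * ((univ : Finset (Fin m)).image φ).card := by
  have h := Finset.card_le_mul_card_image (f := φ) (univ : Finset (Fin m)) 2 (by
    intro b _
    by_contra hcon
    push Not at hcon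
    obtain ⟨i, hi, j, hj, l, hl, hij, hil, hjl⟩ := Finset.two_lt_card.1 hcon
    simp only [mem_filter, mem_univ, true_and] at hi hj hl
    have hne : ∀ a b : Fin m, a ≠ b → ((a.val : ℤ)) ≠ (b.val : ℤ) := by
      intro a b hab h
      exact hab (Fin.ext (by exact_mod_cast h))
    exact quad_three A B C hC _ _ _ (hne i j hij) (hne i l hil) (hne j l hjl)
      (hφ i j (hi.trans hj.symm)) (hφ i l (hi.trans hl.symm)))
  rwa [card_univ, Fintype.card_fin] at h

lemma exists_good_sum {Ω ι : Type} [Fintype Ω] [DecidableEq Ω] (I : Finset ι) (B : ι → Finset Ω)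
    (h : ∑ i ∈ I, ((B i).card : ℝ) < Fintype.card Ω) :
    ∃ ω, ∀ i ∈ I, ω ∉ B i := by
  classical
  by_contra hcon
  push Not at hcon
  have h1 : (univ : Finset Ω) ⊆ I.biUnion B := by
    intro ω _
    obtain ⟨i, hi, hi2⟩ := hcon ω
    exact Finset.mem_biUnion.2 ⟨i, hi, hi2⟩
  have h2 : (Fintype.card Ω : ℝ) ≤ ∑ i ∈ I, ((B i).card : ℝ) := by
    have h3 := (Finset.card_le_card h1).trans Finset.card_biUnion_le
    rw [card_univ] at h3
    exact_mod_cast h3
  linarith

lemma exists_color (m M L R : ℕ) (hm : 3 ≤ m) (hL : 2 ≤ L)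
    (h1 : 4 * (M : ℝ) ^ 3 ≤ (L : ℝ) ^ ((m + 1) / 2))
    (h2 : 4 * (M : ℝ) ^ 2 * (1 - 1 / (L : ℝ)) ^ R ≤ 1) :
    ∃ g : Fin M → Fin L,
      (∀ A B C : ℤ, 0 < C → ¬ ∀ j : ℕ, j < m → 0 ≤ A + B * (j : ℤ) + C * (j : ℤ) ^ 2 ∧
        hit g (A + B * (j : ℤ) + C * (j : ℤ) ^ 2).toNat) ∧
      (∀ a v : ℕ, 1 ≤ v → a + v ^ 2 * R < M → ∃ t, 1 ≤ t ∧ t ≤ R ∧ hit g (a + v ^ 2 * t)) := by
  classical
  have hL0 : (0 : ℝ) < L := by exact_mod_cast (by omega : 0 < L)
  -- the bad sets
  let B1 : Fin M × Fin M × Fin M → Finset (Fin M → Fin L) := fun z =>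
    univ.filter (fun g => ∃ A B C : ℤ, 0 < C ∧ A = z.1.val ∧ A + B + C = z.2.1.val ∧
      A + 2 * B + 4 * C = z.2.2.val ∧
      ∀ j : ℕ, j < m → 0 ≤ A + B * (j : ℤ) + C * (j : ℤ) ^ 2 ∧
        hit g (A + B * (j : ℤ) + C * (j : ℤ) ^ 2).toNat)
  let B2 : Fin M × Fin M → Finset (Fin M → Fin L) := fun z =>
    if 1 ≤ z.2.val ∧ z.1.val + z.2.val ^ 2 * R < M then
      univ.filter (fun g => ∀ t, 1 ≤ t → t ≤ R → ¬ hit g (z.1.val + z.2.val ^ 2 * t)) else ∅
  let BB : (Fin M × Fin M × Fin M) ⊕ (Fin M × Fin M) → Finset (Fin M → Fin L) := Sum.elim B1 B2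
  have hcardΩ : (Fintype.card (Fin M → Fin L) : ℝ) = (L : ℝ) ^ M := by
    rw [Fintype.card_fun, Fintype.card_fin, Fintype.card_fin]; push_cast; rfl
  have hB1 : ∀ z, ((B1 z).card : ℝ) * (L : ℝ) ^ ((m + 1) / 2) ≤ (L : ℝ) ^ M := by
    intro z
    by_cases hne : (B1 z).Nonempty
    · obtain ⟨g0, hg0⟩ := hne
      obtain ⟨A, B, C, hC, hA, hAB, hABC, hj⟩ := (mem_filter.1 hg0).2
      let φ : Fin m → Fin M := fun j => ⟨(A + B * (j.val : ℤ) + C * (j.val : ℤ) ^ 2).toNat,
        (hj j.val j.isLt).2.choose⟩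
      have hQ := quad_distinct m A B C hC φ (by
        intro i j hij
        have h3 : (A + B * (i.val : ℤ) + C * (i.val : ℤ) ^ 2).toNat =
            (A + B * (j.val : ℤ) + C * (j.val : ℤ) ^ 2).toNat := congrArg Fin.val hij
        have h4 := (hj i.val i.isLt).1
        have h5 := (hj j.val j.isLt).1
        rw [← Int.toNat_of_nonneg h4, ← Int.toNat_of_nonneg h5, h3])
      set Q := (univ : Finset (Fin m)).image φ with hQdef
      have hLpos : 0 < L := by omega
      have hsub : B1 z ⊆ univ.filter (fun g : Fin M → Fin L => ∀ x ∈ Q, g x ∈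
          ({⟨0, hLpos⟩} : Finset (Fin L))) := by
        intro g hg
        obtain ⟨A', B', C', hC', hA', hAB', hABC', hj'⟩ := (mem_filter.1 hg).2
        have eA : A' = A := hA'.trans hA.symm
        have eC : C' = C := by
          have e1 := hAB'.trans hAB.symm
          have e2 := hABC'.trans hABC.symm
          linarith
        have eB : B' = B := by
          have e1 := hAB'.trans hAB.symm
          linarith
        subst eA; subst eC; subst eB
        rw [mem_filter]
        refine ⟨mem_univ _, fun x hx => ?_⟩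
        obtain ⟨j, -, rfl⟩ := Finset.mem_image.1 hx
        obtain ⟨-, hlt, hval⟩ := hj' j.val j.isLt
        rw [mem_singleton]
        exact Fin.ext hval
      have hcard := Finset.card_le_card hsub
      rw [card_fun_filter', card_singleton, one_pow, one_mul, Fintype.card_fin, Fintype.card_fin] at hcard
      have hQM : Q.card ≤ M := by
        have := Finset.card_le_univ Q
        rwa [Fintype.card_fin] at this
      have hmQ : (m + 1) / 2 ≤ Q.card := by omega
      calc ((B1 z).card : ℝ) * (L : ℝ) ^ ((m + 1) / 2) ≤ (L : ℝ) ^ (M - Q.card) * (L : ℝ) ^ Q.card := by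
            apply mul_le_mul
            · exact_mod_cast hcard
            · apply pow_le_pow_right₀ _ hmQ
              exact_mod_cast (by omega : 1 ≤ L)
            · positivity
            · positivity
        _ = (L : ℝ) ^ M := by rw [← pow_add]; congr 1; omega
    · rw [Finset.not_nonempty_iff_eq_empty.1 hne]
      simp
  have hB2 : ∀ z, ((B2 z).card : ℝ) ≤ (1 - 1 / (L : ℝ)) ^ R * (L : ℝ) ^ M := by
    intro z
    have hnn : 0 ≤ (1 - 1 / (L : ℝ)) := by
      rw [sub_nonneg, div_le_one hL0]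
      exact_mod_cast (by omega : 1 ≤ L)
    simp only [B2]
    split_ifs with hz
    · obtain ⟨hv, hM⟩ := hz
      have hlt : ∀ t : Fin R, z.1.val + z.2.val ^ 2 * (t.val + 1) < M := by
        intro t
        have : z.2.val ^ 2 * (t.val + 1) ≤ z.2.val ^ 2 * R := Nat.mul_le_mul_left _ t.isLt
        omega
      let ψ : Fin R → Fin M := fun t => ⟨z.1.val + z.2.val ^ 2 * (t.val + 1), hlt t⟩
      have hψ : Function.Injective ψ := by
        intro t t' h
        have h3 : z.1.val + z.2.val ^ 2 * (t.val + 1) = z.1.val + z.2.val ^ 2 * (t'.val + 1) :=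
          congrArg Fin.val h
        have h4 : z.2.val ^ 2 * (t.val + 1) = z.2.val ^ 2 * (t'.val + 1) := by omega
        have h5 : 0 < z.2.val ^ 2 := by positivity
        have h6 := Nat.eq_of_mul_eq_mul_left h5 h4
        exact Fin.ext (by omega)
      set Q := (univ : Finset (Fin R)).image ψ with hQdef
      have hQc : Q.card = R := by
        rw [hQdef, Finset.card_image_of_injective _ hψ, card_univ, Fintype.card_fin]
      have hLpos : 0 < L := by omega
      have hsub : univ.filter (fun g : Fin M → Fin L => ∀ t, 1 ≤ t → t ≤ R →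
          ¬ hit g (z.1.val + z.2.val ^ 2 * t)) ⊆
          univ.filter (fun g : Fin M → Fin L => ∀ x ∈ Q, g x ∈
            (univ.erase ⟨0, hLpos⟩ : Finset (Fin L))) := by
        intro g hg
        have hg2 := (mem_filter.1 hg).2
        rw [mem_filter]
        refine ⟨mem_univ _, fun x hx => ?_⟩
        obtain ⟨t, -, rfl⟩ := Finset.mem_image.1 hx
        rw [mem_erase]
        refine ⟨fun h0 => ?_, mem_univ _⟩
        exact hg2 (t.val + 1) (by omega) (by have := t.isLt; omega) ⟨hlt t, congrArg Fin.val h0⟩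
      have hcard := Finset.card_le_card hsub
      have hRM : R ≤ M := by
        have := Finset.card_le_univ Q
        rwa [Fintype.card_fin, hQc] at this
      rw [card_fun_filter', card_erase_of_mem (mem_univ _), card_univ, Fintype.card_fin,
        Fintype.card_fin, hQc] at hcard
      have hcard' : (((univ.filter (fun g : Fin M → Fin L => ∀ t, 1 ≤ t → t ≤ R →
          ¬ hit g (z.1.val + z.2.val ^ 2 * t))).card : ℕ) : ℝ) ≤
          ((L : ℝ) - 1) ^ R * (L : ℝ) ^ (M - R) := by
        have h3 : (((L - 1 : ℕ) : ℝ)) = (L : ℝ) - 1 := by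
          rw [Nat.cast_sub (by omega)]; simp
        rw [← h3]
        exact_mod_cast hcard
      refine hcard'.trans (le_of_eq ?_)
      have h4 : (L : ℝ) ^ M = (L : ℝ) ^ R * (L : ℝ) ^ (M - R) := by
        rw [← pow_add]; congr 1; omega
      rw [h4, ← mul_assoc, ← mul_pow]
      congr 2
      field_simp
    · simp only [card_empty, Nat.cast_zero]
      positivity
  have hsum : ∑ i ∈ (univ : Finset ((Fin M × Fin M × Fin M) ⊕ (Fin M × Fin M))), ((BB i).card : ℝ) <
      Fintype.card (Fin M → Fin L) := by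
    rw [Fintype.sum_sum_type, hcardΩ]
    simp only [BB, Sum.elim_inl, Sum.elim_inr]
    have hLM : (0 : ℝ) < (L : ℝ) ^ M := by positivity
    have hLm : (0 : ℝ) < (L : ℝ) ^ ((m + 1) / 2) := by positivity
    have s1 : ∑ z : Fin M × Fin M × Fin M, ((B1 z).card : ℝ) ≤ (L : ℝ) ^ M / 4 := by
      have h3 : ∀ z, ((B1 z).card : ℝ) ≤ (L : ℝ) ^ M / (L : ℝ) ^ ((m + 1) / 2) := by
        intro z
        rw [le_div_iff₀ hLm]
        exact hB1 z
      calc ∑ z : Fin M × Fin M × Fin M, ((B1 z).card : ℝ) ≤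
          ∑ z : Fin M × Fin M × Fin M, (L : ℝ) ^ M / (L : ℝ) ^ ((m + 1) / 2) :=
            Finset.sum_le_sum (fun z _ => h3 z)
        _ = (M : ℝ) ^ 3 * ((L : ℝ) ^ M / (L : ℝ) ^ ((m + 1) / 2)) := by
            rw [Finset.sum_const, card_univ, nsmul_eq_mul, Fintype.card_prod, Fintype.card_prod,
              Fintype.card_fin]
            push_cast
            ring
        _ ≤ (L : ℝ) ^ M / 4 := by
            rw [← mul_div_assoc, div_le_div_iff₀ hLm (by norm_num)]
            calc (M : ℝ) ^ 3 * (L : ℝ) ^ M * 4 = (4 * (M : ℝ) ^ 3) * (L : ℝ) ^ M := by ring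
              _ ≤ (L : ℝ) ^ ((m + 1) / 2) * (L : ℝ) ^ M :=
                mul_le_mul_of_nonneg_right h1 hLM.le
              _ = (L : ℝ) ^ M * (L : ℝ) ^ ((m + 1) / 2) := by ring
    have s2 : ∑ z : Fin M × Fin M, ((B2 z).card : ℝ) ≤ (L : ℝ) ^ M / 4 := by
      calc ∑ z : Fin M × Fin M, ((B2 z).card : ℝ) ≤
          ∑ z : Fin M × Fin M, (1 - 1 / (L : ℝ)) ^ R * (L : ℝ) ^ M :=
            Finset.sum_le_sum (fun z _ => hB2 z)
        _ = (M : ℝ) ^ 2 * ((1 - 1 / (L : ℝ)) ^ R * (L : ℝ) ^ M) := by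
            rw [Finset.sum_const, card_univ, nsmul_eq_mul, Fintype.card_prod, Fintype.card_fin]
            push_cast
            ring
        _ = (4 * (M : ℝ) ^ 2 * (1 - 1 / (L : ℝ)) ^ R) * (L : ℝ) ^ M / 4 := by ring
        _ ≤ 1 * (L : ℝ) ^ M / 4 := by
            apply div_le_div_of_nonneg_right _ (by norm_num)
            exact mul_le_mul_of_nonneg_right h2 hLM.le
        _ = (L : ℝ) ^ M / 4 := by ring
    linarith
  obtain ⟨g, hg⟩ := exists_good_sum univ BB hsum
  refine ⟨g, ?_, ?_⟩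
  · intro A B C hC hj
    have e0 := hj 0 (by omega)
    have e1 := hj 1 (by omega)
    have e2 := hj 2 (by omega)
    obtain ⟨n0, l0, -⟩ := e0
    obtain ⟨n1, l1, -⟩ := e1
    obtain ⟨n2, l2, -⟩ := e2
    refine hg (Sum.inl (⟨_, l0⟩, ⟨_, l1⟩, ⟨_, l2⟩)) (mem_univ _) ?_
    simp only [BB, Sum.elim_inl, B1, mem_filter, mem_univ, true_and]
    refine ⟨A, B, C, hC, ?_, ?_, ?_, hj⟩
    · rw [Int.toNat_of_nonneg n0]; push_cast; ring
    · rw [Int.toNat_of_nonneg n1]; push_cast; ring
    · rw [Int.toNat_of_nonneg n2]; push_cast; ring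
  · intro a v hv hM
    by_contra hcon
    push Not at hcon
    have hRpos : 0 < R := by
      by_contra hR
      have : R = 0 := by omega
      subst this
      -- then the bound h2 fails unless `M = 0`
      rw [pow_zero, mul_one] at h2
      have hM1 : (1 : ℝ) ≤ M := by exact_mod_cast (by omega : 1 ≤ M)
      nlinarith
    have ha : a < M := by omega
    have hvM : v < M := by
      have : v ≤ v ^ 2 * R := by
        calc v = v * 1 := (mul_one v).symm
          _ ≤ v ^ 2 * R := Nat.mul_le_mul (by nlinarith) hRpos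
      omega
    refine hg (Sum.inr (⟨a, ha⟩, ⟨v, hvM⟩)) (mem_univ _) ?_
    simp only [BB, Sum.elim_inr, B2]
    rw [if_pos ⟨hv, hM⟩, mem_filter]
    exact ⟨mem_univ _, hcon⟩

end Helper84K9.GP
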