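import Mathlib

/-! Counting in finite product spaces. -/

set_option autoImplicit false

namespace Helper84K9.GP

open Finset

/-- the number of functions with prescribed set of values on `Q` -/
lemma card_fun_filter {ι κ : Type} [Fintype ι] [DecidableEq ι] [Fintype κ] [DecidableEq κ]
    (Q : Finset ι) (T : Finset κ) :
    ((univ : Finset (ι → κ)).filter (fun g => ∀ x ∈ Q, g x ∈ T)).card =
      T.card ^ Q.card * (Fintype.card κ) ^ (Fintype.card ι - Q.card) := by
  classical
  have h : (univ : Finset (ι → κ)).filter (fun g => ∀ x ∈ Q, g x ∈ T) =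
      Fintype.piFinset (fun x => if x ∈ Q then T else univ) := by
    ext g
    simp only [mem_filter, mem_univ, true_and, Fintype.mem_piFinset]
    constructor
    · intro h x
      split_ifs with hx
      · exact h x hx
      · exact mem_univ _
    · intro h x hx
      have := h x
      rwa [if_pos hx] at this
  rw [h, Fintype.card_piFinset]
  have h2 : ∀ x : ι, (if x ∈ Q then T else univ).card = if x ∈ Q then T.card else Fintype.card κ := by
    intro x
    split_ifs
    · rfl
    · rw [card_univ]
  simp only [h2]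
  rw [Finset.prod_ite]
  simp only [prod_const]
  congr 2
  · congr 1
    ext x
    simp
  · have : (univ.filter (fun x => x ∉ Q)) = Qᶜ := by
      ext x; simp
    rw [this, Finset.card_compl]

lemma card_fun_filter' {ι κ : Type} [Fintype ι] [DecidableEq ι] [Fintype κ] [DecidableEq κ]
    (Q : Finset ι) (T : Finset κ) {hd : DecidablePred fun g : ι → κ => ∀ x ∈ Q, g x ∈ T} :
    (@Finset.filter _ (fun g : ι → κ => ∀ x ∈ Q, g x ∈ T) hd univ).card =
      T.card ^ Q.card * (Fintype.card κ) ^ (Fintype.card ι - Q.card) := by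
  rw [← card_fun_filter Q T]
  congr 1
  ext g
  simp only [mem_filter]

/-- the union bound -/
lemma exists_good {Ω ι : Type} [Fintype Ω] [DecidableEq Ω] (I : Finset ι) (B : ι → Finset Ω)
    (c : ℝ) (h : ∀ i ∈ I, ((B i).card : ℝ) ≤ c) (hc : (I.card : ℝ) * c < Fintype.card Ω) :
    ∃ ω, ∀ i ∈ I, ω ∉ B i := by
  classical
  by_contra hcon
  push Not at hcon
  have h1 : (univ : Finset Ω) ⊆ I.biUnion B := by
    intro ω _
    obtain ⟨i, hi, hi2⟩ := hcon ω
    exact Finset.mem_biUnion.2 ⟨i, hi, hi2⟩
  have h2 : (Fintype.card Ω : ℝ) ≤ ∑ i ∈ I, ((B i).card : ℝ) := by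
    have h3 := (Finset.card_le_card h1).trans Finset.card_biUnion_le
    rw [card_univ] at h3
    exact_mod_cast h3
  have h4 : ∑ i ∈ I, ((B i).card : ℝ) ≤ I.card * c := by
    calc _ ≤ ∑ i ∈ I, c := Finset.sum_le_sum h
      _ = _ := by rw [Finset.sum_const, nsmul_eq_mul]
  linarith

lemma sum_update {ι κ : Type} [Fintype ι] [DecidableEq ι] [Fintype κ] (c : ι)
    (f : (ι → κ) → ℕ) :
    ∑ ω : ι → κ, ∑ t : κ, f (Function.update ω c t) = Fintype.card κ * ∑ ω : ι → κ, f ω := by
  classical
  have key : ∀ F : (ι → κ) → ℕ, ∑ ω : ι → κ, F ω =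
      ∑ z : κ × ({j // j ≠ c} → κ), F ((Equiv.funSplitAt c κ).symm z) := by
    intro F
    exact (Equiv.sum_comp (Equiv.funSplitAt c κ).symm F).symm
  rw [key, key f, Fintype.sum_prod_type, Fintype.sum_prod_type]
  have hupd : ∀ (a t : κ) (v : {j // j ≠ c} → κ),
      Function.update ((Equiv.funSplitAt c κ).symm (a, v)) c t =
        (Equiv.funSplitAt c κ).symm (t, v) := by
    intro a t v
    funext j
    by_cases hj : j = c
    · subst hj
      simp [Equiv.funSplitAt, Equiv.piSplitAt]
    · rw [Function.update_of_ne hj]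
      simp [Equiv.funSplitAt, Equiv.piSplitAt, hj]
  simp only [hupd]
  rw [Finset.sum_const, card_univ, smul_eq_mul, Finset.sum_comm]

/-- Events which depend on private coordinates. -/
lemma card_inter_le {ι κ α : Type} [Fintype ι] [DecidableEq ι] [Fintype κ] [DecidableEq α]
    (E : α → (ι → κ) → Prop) [∀ a ω, Decidable (E a ω)] (c : α → ι) (𝒢 : Finset α)
    (hindep : ∀ a ∈ 𝒢, ∀ a' ∈ 𝒢, a ≠ a' → ∀ (ω : ι → κ) (t : κ),
      E a' (Function.update ω (c a) t) ↔ E a' ω)
    (r : ℕ)
    (hr : ∀ a ∈ 𝒢, ∀ ω : ι → κ, (univ.filter (fun t : κ => E a (Function.update ω (c a) t))).card ≤ r) :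
    (univ.filter (fun ω : ι → κ => ∀ a ∈ 𝒢, E a ω)).card * (Fintype.card κ) ^ 𝒢.card ≤
      r ^ 𝒢.card * Fintype.card (ι → κ) := by
  classical
  induction 𝒢 using Finset.induction_on with
  | empty => simp
  | insert a 𝒢 ha ih =>
    have ih' := ih (fun b hb b' hb' hne => hindep b (mem_insert_of_mem hb) b' (mem_insert_of_mem hb') hne)
      (fun b hb => hr b (mem_insert_of_mem hb))
    -- key step
    have step : (univ.filter (fun ω : ι → κ => ∀ b ∈ insert a 𝒢, E b ω)).card * Fintype.card κ ≤
        r * (univ.filter (fun ω : ι → κ => ∀ b ∈ 𝒢, E b ω)).card := by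
      have h1 : (univ.filter (fun ω : ι → κ => ∀ b ∈ insert a 𝒢, E b ω)).card =
          ∑ ω : ι → κ, if (∀ b ∈ insert a 𝒢, E b ω) then 1 else 0 := by
        rw [Finset.card_filter]
      rw [h1, mul_comm, ← sum_update (a |> c)]
      rw [Finset.card_filter, Finset.mul_sum]
      apply Finset.sum_le_sum
      intro ω _
      have h2 : ∀ t : κ, (∀ b ∈ insert a 𝒢, E b (Function.update ω (c a) t)) ↔
          (E a (Function.update ω (c a) t) ∧ ∀ b ∈ 𝒢, E b ω) := by
        intro t
        constructor
        · intro h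
          refine ⟨h a (mem_insert_self _ _), fun b hb => ?_⟩
          have hne : a ≠ b := fun h => ha (h ▸ hb)
          exact (hindep a (mem_insert_self _ _) b (mem_insert_of_mem hb) hne ω t).1
            (h b (mem_insert_of_mem hb))
        · rintro ⟨h1, h2⟩ b hb
          rcases mem_insert.1 hb with rfl | hb
          · exact h1
          · have hne : a ≠ b := fun h => ha (h ▸ hb)
            exact (hindep a (mem_insert_self _ _) b (mem_insert_of_mem hb) hne ω t).2 (h2 b hb)
      by_cases hω : ∀ b ∈ 𝒢, E b ω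
      · rw [if_pos hω, mul_one]
        have h3 := hr a (mem_insert_self _ _) ω
        rw [Finset.card_filter] at h3
        refine le_trans (Finset.sum_le_sum (fun t _ => ?_)) h3
        by_cases ht : E a (Function.update ω (c a) t)
        · rw [if_pos ht]
          split_ifs <;> omega
        · rw [if_neg ht, if_neg (fun h => ht ((h2 t).1 h).1)]
      · rw [if_neg hω, mul_zero]
        apply le_of_eq
        apply Finset.sum_eq_zero
        intro t _
        rw [if_neg (fun h => hω ((h2 t).1 h).2)]
    rw [card_insert_of_notMem ha, pow_succ, pow_succ]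
    calc (univ.filter (fun ω : ι → κ => ∀ b ∈ insert a 𝒢, E b ω)).card *
          (Fintype.card κ ^ 𝒢.card * Fintype.card κ)
        = ((univ.filter (fun ω : ι → κ => ∀ b ∈ insert a 𝒢, E b ω)).card * Fintype.card κ) *
          Fintype.card κ ^ 𝒢.card := by ring
      _ ≤ (r * (univ.filter (fun ω : ι → κ => ∀ b ∈ 𝒢, E b ω)).card) *
          Fintype.card κ ^ 𝒢.card := Nat.mul_le_mul_right _ step
      _ = r * ((univ.filter (fun ω : ι → κ => ∀ b ∈ 𝒢, E b ω)).card *
          Fintype.card κ ^ 𝒢.card) := by ring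
      _ ≤ r * (r ^ 𝒢.card * Fintype.card (ι → κ)) := Nat.mul_le_mul_left _ ih'
      _ = r ^ 𝒢.card * r * Fintype.card (ι → κ) := by ring

end Helper84K9.GP
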