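import Pool.Agent.Helper84K9.GP.Main

/-! Sets without `k`-term geometric progressions and with small gaps: putting the scales together. -/

set_option autoImplicit false

namespace Helper84K9.GP

open Finset Filter Topology

lemma sq_le_two_pow (n : ℕ) (hn : 4 ≤ n) : n * n ≤ 2 ^ n := by
  induction n, hn using Nat.le_induction with
  | base => norm_num
  | succ n hn ih =>
    rw [pow_succ]
    nlinarith

lemma lin_le_two_pow (a b n : ℕ) (hn : a + b + 4 ≤ n) : a + b * n ≤ 2 ^ n := by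
  calc a + b * n ≤ n * n := by nlinarith
    _ ≤ 2 ^ n := sq_le_two_pow n (by omega)

/-- the gap at scale `i` -/
def gap (κ q i : ℕ) : ℕ := 4 * (κ ^ (i + 1)) ^ (q + 2)

lemma gap_cond (κ q i : ℕ) (hκ : 2 ≤ κ) (hq : 1 ≤ q)
    (hi : (24 + 8 * ((q + 2) * κ)) + 8 * ((q + 2) * κ) + 4 ≤ i) :
    (2 * gap κ q i) ^ 8 ≤ 2 ^ ((κ ^ q) ^ i) := by
  have h1 : κ ≤ 2 ^ κ := (Nat.lt_two_pow_self).le
  have h2 : 2 * gap κ q i ≤ 2 ^ (3 + κ * ((i + 1) * (q + 2))) := by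
    unfold gap
    calc 2 * (4 * (κ ^ (i + 1)) ^ (q + 2)) = 2 ^ 3 * κ ^ ((i + 1) * (q + 2)) := by
          rw [← pow_mul]; ring
      _ ≤ 2 ^ 3 * (2 ^ κ) ^ ((i + 1) * (q + 2)) :=
          Nat.mul_le_mul_left _ (Nat.pow_le_pow_left h1 _)
      _ = 2 ^ (3 + κ * ((i + 1) * (q + 2))) := by rw [← pow_mul, ← pow_add]
  calc (2 * gap κ q i) ^ 8 ≤ (2 ^ (3 + κ * ((i + 1) * (q + 2)))) ^ 8 := Nat.pow_le_pow_left h2 8
    _ = 2 ^ ((3 + κ * ((i + 1) * (q + 2))) * 8) := by rw [← pow_mul]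
    _ ≤ 2 ^ ((κ ^ q) ^ i) := by
        apply Nat.pow_le_pow_right (by norm_num)
        have h3 := lin_le_two_pow (24 + 8 * ((q + 2) * κ)) (8 * ((q + 2) * κ)) i hi
        calc (3 + κ * ((i + 1) * (q + 2))) * 8 = 24 + 8 * ((q + 2) * κ) + 8 * ((q + 2) * κ) * i := by
              ring
          _ ≤ 2 ^ i := h3
          _ ≤ (κ ^ q) ^ i := by
              apply Nat.pow_le_pow_left
              calc 2 ≤ κ := hκ
                _ = κ ^ 1 := (pow_one _).symm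
                _ ≤ κ ^ q := Nat.pow_le_pow_right (by omega) hq

lemma gap_mono (κ q i : ℕ) (hκ : 2 ≤ κ) : gap κ q i ≤ gap κ q (i + 1) := by
  unfold gap
  apply Nat.mul_le_mul_left
  apply Nat.pow_le_pow_left
  apply Nat.pow_le_pow_right (by omega)
  omega

lemma gap_pos (κ q i : ℕ) (hκ : 2 ≤ κ) : 0 < gap κ q i := by
  unfold gap
  positivity

/-- The set: natural number version. -/
theorem exists_set (q : ℕ) (hq : 1 ≤ q) :
    ∃ (A : Set ℕ) (i0 : ℕ), (∀ a ∈ A, 0 < a) ∧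
      (∀ b : ℕ → ℕ, (∀ j < 24 * q + 27, b j ∈ A) →
        (∀ j, j + 2 < 24 * q + 27 → b j * b (j + 2) = b (j + 1) ^ 2) → ¬ b 0 < b 1) ∧
      (∀ x i : ℕ, i0 ≤ i → ((24 * q + 27) ^ q) ^ i ≤ Nat.log 2 x →
        Nat.log 2 x < ((24 * q + 27) ^ q) ^ (i + 1) → ∃ a ∈ A, x ≤ a ∧
          a < x + 2 * gap (24 * q + 27) q (i + 1)) := by
  classical
  set κ := 24 * q + 27 with hκdef
  have hκ2 : 2 ≤ κ := by omega
  set K := κ ^ q with hK
  have hKκ : κ ≤ K := by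
    calc κ = κ ^ 1 := (pow_one _).symm
      _ ≤ κ ^ q := Nat.pow_le_pow_right (by omega) hq
  obtain ⟨L0, hL0, hscale⟩ := scale' q hq
  set i0 := max L0 ((24 + 8 * ((q + 2) * κ)) + 8 * ((q + 2) * κ) + 4) with hi0
  have hLi : ∀ i, i0 ≤ i → L0 ≤ κ ^ (i + 1) := by
    intro i hi
    have h1 : L0 ≤ i := le_trans (le_max_left _ _) hi
    have h2 : i + 1 < κ ^ (i + 1) := Nat.lt_pow_self (by omega)
    omega
  have hpw : ∀ i, (κ ^ (i + 1)) ^ q = K ^ (i + 1) := by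
    intro i
    rw [hK, ← pow_mul, ← pow_mul, mul_comm]
  have hex : ∀ i, i0 ≤ i → ∃ S : Set ℕ,
      (∀ b : ℕ → ℕ, (∀ j < 12 * q + 13, b j ∈ S) → (∀ j < 12 * q + 13, 0 < b j) →
        (∀ j < 12 * q + 13, b j < 2 ^ (K ^ (i + 1))) →
        (∀ j, j + 2 < 12 * q + 13 → b j * b (j + 2) = b (j + 1) ^ 2) → b 0 = b 1) ∧
      (∀ x : ℕ, (2 * gap κ q i) ^ 8 ≤ x → x + gap κ q i ≤ 2 ^ (K ^ (i + 1)) →
        ∃ n ∈ S, x ≤ n ∧ n < x + gap κ q i) := by
    intro i hi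
    have h := hscale (κ ^ (i + 1)) (hLi i hi)
    rw [hpw i] at h
    exact h
  let S : ℕ → Set ℕ := fun i => if h : i0 ≤ i then (hex i h).choose else ∅
  have hS : ∀ i, i0 ≤ i →
      (∀ b : ℕ → ℕ, (∀ j < 12 * q + 13, b j ∈ S i) → (∀ j < 12 * q + 13, 0 < b j) →
        (∀ j < 12 * q + 13, b j < 2 ^ (K ^ (i + 1))) →
        (∀ j, j + 2 < 12 * q + 13 → b j * b (j + 2) = b (j + 1) ^ 2) → b 0 = b 1) ∧
      (∀ x : ℕ, (2 * gap κ q i) ^ 8 ≤ x → x + gap κ q i ≤ 2 ^ (K ^ (i + 1)) →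
        ∃ n ∈ S i, x ≤ n ∧ n < x + gap κ q i) := by
    intro i hi
    simp only [S, dif_pos hi]
    exact (hex i hi).choose_spec
  refine ⟨{n | 0 < n ∧ ∃ i, i0 ≤ i ∧ K ^ i ≤ Nat.log 2 n ∧ Nat.log 2 n < K ^ (i + 1) ∧ n ∈ S i},
    i0, fun a ha => ha.1, ?_, ?_⟩
  · intro b hb hgp h01
    apply no_gp (12 * q + 13) K (by omega) (by omega) i0 S (fun i hi => (hS i hi).1) b _ _ h01
    · intro j hj
      exact hb j (by omega)
    · intro j hj
      exact hgp j (by omega)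
  · intro x i hi h1 h2
    have hcond : ∀ i, i0 ≤ i → (2 * gap κ q i) ^ 8 ≤ 2 ^ (K ^ i) := by
      intro i hi
      exact gap_cond κ q i hκ2 hq (le_trans (le_max_right _ _) hi)
    have hKpos : ∀ i, 0 < K ^ i := fun i => Nat.pow_pos (by omega)
    have hx0 : x ≠ 0 := by
      rintro rfl
      simp only [Nat.log_zero_right] at h1
      have := hKpos i
      omega
    have hxlow : 2 ^ (K ^ i) ≤ x := by
      calc 2 ^ (K ^ i) ≤ 2 ^ (Nat.log 2 x) := Nat.pow_le_pow_right (by norm_num) h1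
        _ ≤ x := Nat.pow_log_le_self 2 hx0
    have hgm := gap_mono κ q i hκ2
    by_cases hcase : x + gap κ q i ≤ 2 ^ (K ^ (i + 1))
    · obtain ⟨n, hn, hxn, hnx⟩ := (hS i hi).2 x ((hcond i hi).trans hxlow) hcase
      refine ⟨n, ⟨by omega, i, hi, ?_, ?_, hn⟩, hxn, by omega⟩
      · exact h1.trans (Nat.log_mono_right hxn)
      · rw [Nat.log_lt_iff_lt_pow (by norm_num) (by omega)]
        omega
    · push Not at hcase
      have hi' : i0 ≤ i + 1 := by omega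
      have hc' := hcond (i + 1) hi'
      have hgle : gap κ q (i + 1) ≤ 2 ^ (K ^ (i + 1)) := by
        calc gap κ q (i + 1) ≤ 2 * gap κ q (i + 1) := by omega
          _ = (2 * gap κ q (i + 1)) ^ 1 := (pow_one _).symm
          _ ≤ (2 * gap κ q (i + 1)) ^ 8 :=
            Nat.pow_le_pow_right (by have := gap_pos κ q (i + 1) hκ2; omega) (by norm_num)
          _ ≤ _ := hc'
      have hKlt : K ^ (i + 1) + 1 ≤ K ^ (i + 1 + 1) := by
        rw [pow_succ K (i + 1)]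
        have := hKpos (i + 1)
        nlinarith
      have hup : 2 ^ (K ^ (i + 1)) + gap κ q (i + 1) ≤ 2 ^ (K ^ (i + 1 + 1)) := by
        calc 2 ^ (K ^ (i + 1)) + gap κ q (i + 1) ≤ 2 ^ (K ^ (i + 1)) + 2 ^ (K ^ (i + 1)) := by omega
          _ = 2 ^ (K ^ (i + 1) + 1) := by rw [pow_succ]; ring
          _ ≤ 2 ^ (K ^ (i + 1 + 1)) := Nat.pow_le_pow_right (by norm_num) hKlt
      obtain ⟨n, hn, hxn, hnx⟩ := (hS (i + 1) hi').2 (2 ^ (K ^ (i + 1))) hc' hup
      have hxlt : x < 2 ^ (K ^ (i + 1)) := by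
        rwa [Nat.log_lt_iff_lt_pow (by norm_num) hx0] at h2
      have hn0 : n ≠ 0 := by
        have : 0 < 2 ^ (K ^ (i + 1)) := by positivity
        omega
      refine ⟨n, ⟨by omega, i + 1, hi', ?_, ?_, hn⟩, by omega, by omega⟩
      · have : Nat.log 2 (2 ^ (K ^ (i + 1))) = K ^ (i + 1) := Nat.log_pow (by norm_num) _
        rw [← this]
        exact Nat.log_mono_right hxn
      · rw [Nat.log_lt_iff_lt_pow (by norm_num) hn0]
        omega

lemma gap_real (κ q i : ℕ) (hκ : 2 ≤ κ) (hq : 1 ≤ q) (lam : ℝ) (h : (((κ ^ q) ^ i : ℕ) : ℝ) ≤ lam) :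
    (gap κ q (i + 1) : ℝ) ≤ 4 * (κ : ℝ) ^ (2 * (q + 2)) * lam ^ (1 + 2 / (q : ℝ)) := by
  have hq0 : (0 : ℝ) < q := by exact_mod_cast hq
  have hκ0 : (0 : ℝ) < κ := by exact_mod_cast (by omega : 0 < κ)
  set y : ℝ := (κ : ℝ) ^ i with hy
  have hy0 : 0 < y := by positivity
  have h1 : (((κ ^ q) ^ i : ℕ) : ℝ) = y ^ q := by
    rw [hy]; push_cast; rw [← pow_mul, ← pow_mul, mul_comm]
  have h2 : y ^ (q + 2) = (y ^ q) ^ (1 + 2 / (q : ℝ)) := by
    rw [← Real.rpow_natCast y q, ← Real.rpow_mul hy0.le, ← Real.rpow_natCast]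
    congr 1
    push_cast
    field_simp
  have h3 : (gap κ q (i + 1) : ℝ) = 4 * (κ : ℝ) ^ (2 * (q + 2)) * y ^ (q + 2) := by
    unfold gap
    rw [hy]
    push_cast
    rw [← pow_mul, ← pow_mul, mul_assoc, ← pow_add]
    congr 2
    ring
  rw [h3, h2]
  apply mul_le_mul_of_nonneg_left _ (by positivity)
  apply Real.rpow_le_rpow (by positivity) _ (by positivity)
  rw [← h1]
  exact h

/-- The set: real version. -/
theorem exists_set_real (q : ℕ) (hq : 1 ≤ q) :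
    ∃ A : Set ℕ, (∀ a ∈ A, 0 < a) ∧
      (∀ b : ℕ → ℕ, (∀ j < 24 * q + 27, b j ∈ A) →
        (∀ j, j + 2 < 24 * q + 27 → b j * b (j + 2) = b (j + 1) ^ 2) → ¬ b 0 < b 1) ∧
      ∃ C : ℝ, ∀ x : ℝ, 2 ≤ x → ∃ a ∈ A, x ≤ (a : ℝ) ∧
        (a : ℝ) ≤ x + C * (Real.log x) ^ (1 + 2 / (q : ℝ)) := by
  obtain ⟨A, i0, hpos, hgp, hgap⟩ := exists_set q hq
  refine ⟨A, hpos, hgp, ?_⟩
  set κ := 24 * q + 27 with hκdef
  have hκ2 : 2 ≤ κ := by omega
  have hκ0 : (0 : ℝ) < κ := by exact_mod_cast (by omega : 0 < κ)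
  set K := κ ^ q with hK
  have hK2 : 2 ≤ K := by
    calc 2 ≤ κ := hκ2
      _ = κ ^ 1 := (pow_one _).symm
      _ ≤ κ ^ q := Nat.pow_le_pow_right (by omega) hq
  have hq0 : (0 : ℝ) < q := by exact_mod_cast hq
  set ee : ℝ := 1 + 2 / (q : ℝ) with hee
  have hee0 : 0 < ee := by positivity
  have hlog2 : 0 < Real.log 2 := Real.log_pos (by norm_num)
  -- the basic statement for large natural numbers
  set D : ℝ := 2 * (4 * (κ : ℝ) ^ (2 * (q + 2))) with hD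
  have hD0 : 0 < D := by positivity
  have hbasic : ∀ n : ℕ, 2 ^ (K ^ i0) ≤ n → ∃ a ∈ A, n ≤ a ∧
      (a : ℝ) ≤ n + D * (Real.log n / Real.log 2) ^ ee := by
    intro n hn
    have hn0 : n ≠ 0 := by
      have : 0 < 2 ^ (K ^ i0) := by positivity
      omega
    have hlog : K ^ i0 ≤ Nat.log 2 n := by
      have h1 : Nat.log 2 (2 ^ (K ^ i0)) = K ^ i0 := Nat.log_pow (by norm_num) _
      rw [← h1]
      exact Nat.log_mono_right hn
    have hlogpos : Nat.log 2 n ≠ 0 := by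
      have : 0 < K ^ i0 := Nat.pow_pos (by omega)
      omega
    set i := Nat.log K (Nat.log 2 n) with hi
    have h1 : K ^ i ≤ Nat.log 2 n := Nat.pow_log_le_self K hlogpos
    have h2 : Nat.log 2 n < K ^ (i + 1) := Nat.lt_pow_succ_log_self (by omega) _
    have h3 : i0 ≤ i := by
      rw [hi]
      have := Nat.log_mono_right (b := K) hlog
      rwa [Nat.log_pow (by omega)] at this
    obtain ⟨a, ha, hna, han⟩ := hgap n i h3 h1 h2
    refine ⟨a, ha, hna, ?_⟩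
    have h4 : (a : ℝ) ≤ n + 2 * (gap κ q (i + 1) : ℝ) := by exact_mod_cast han.le
    have h5 : ((K ^ i : ℕ) : ℝ) ≤ Real.log n / Real.log 2 := by
      have h6 : ((K ^ i : ℕ) : ℝ) ≤ (Nat.log 2 n : ℝ) := by exact_mod_cast h1
      refine h6.trans ?_
      have h7 := Real.natLog_le_logb n 2
      rwa [Real.logb] at h7
    have h8 := gap_real κ q i hκ2 hq _ h5
    calc (a : ℝ) ≤ n + 2 * (gap κ q (i + 1) : ℝ) := h4
      _ ≤ n + 2 * (4 * (κ : ℝ) ^ (2 * (q + 2)) * (Real.log n / Real.log 2) ^ ee) := by linarith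
      _ = n + D * (Real.log n / Real.log 2) ^ ee := by rw [hD]; ring
  -- a fixed large element
  obtain ⟨a0, ha0, ha0', -⟩ := hbasic (2 ^ (K ^ i0)) le_rfl
  have hlp : 0 < (Real.log 2) ^ ee := Real.rpow_pos_of_pos hlog2 _
  refine ⟨((a0 : ℝ) + 1) / (Real.log 2) ^ ee + D * (2 / Real.log 2) ^ ee, fun x hx => ?_⟩
  have hx0 : (0 : ℝ) < x := by linarith
  have hlogx : Real.log 2 ≤ Real.log x := Real.log_le_log (by norm_num) hx
  have hlogx0 : 0 < Real.log x := lt_of_lt_of_le hlog2 hlogx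
  have hpowx : (Real.log 2) ^ ee ≤ (Real.log x) ^ ee := Real.rpow_le_rpow hlog2.le hlogx hee0.le
  have hpowx0 : 0 < (Real.log x) ^ ee := Real.rpow_pos_of_pos hlogx0 _
  have hterm : (a0 : ℝ) + 1 ≤ ((a0 : ℝ) + 1) / (Real.log 2) ^ ee * (Real.log x) ^ ee := by
    rw [div_mul_eq_mul_div, le_div_iff₀ hlp]
    exact mul_le_mul_of_nonneg_left hpowx (by positivity)
  have hDterm : 0 ≤ D * (2 / Real.log 2) ^ ee * (Real.log x) ^ ee := by positivity
  rcases lt_or_ge x (2 ^ (K ^ i0) : ℕ) with hlt | hge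
  · refine ⟨a0, ha0, ?_, ?_⟩
    · have : ((2 ^ (K ^ i0) : ℕ) : ℝ) ≤ a0 := by exact_mod_cast ha0'
      linarith
    · rw [add_mul]
      linarith
  · set n := ⌈x⌉₊ with hn
    have hxn : x ≤ n := Nat.le_ceil x
    have hnx : (n : ℝ) < x + 1 := Nat.ceil_lt_add_one hx0.le
    have hnge : 2 ^ (K ^ i0) ≤ n := by
      have : ((2 ^ (K ^ i0) : ℕ) : ℝ) ≤ n := hge.trans hxn
      exact_mod_cast this
    obtain ⟨a, ha, hna, han⟩ := hbasic n hnge
    refine ⟨a, ha, ?_, ?_⟩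
    · have : (n : ℝ) ≤ a := by exact_mod_cast hna
      linarith
    · have hn0 : (0 : ℝ) < n := by linarith
      have hlogn : Real.log n ≤ 2 * Real.log x := by
        have h1 : (n : ℝ) ≤ x ^ 2 := by nlinarith
        calc Real.log n ≤ Real.log (x ^ 2) := Real.log_le_log hn0 h1
          _ = 2 * Real.log x := by rw [Real.log_pow]; norm_num
      have hlogn0 : 0 ≤ Real.log n := Real.log_nonneg (by linarith)
      have h2 : (Real.log n / Real.log 2) ^ ee ≤ (2 / Real.log 2) ^ ee * (Real.log x) ^ ee := by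
        rw [← Real.mul_rpow (by positivity) hlogx0.le]
        apply Real.rpow_le_rpow (by positivity) _ hee0.le
        rw [div_mul_eq_mul_div]
        exact div_le_div_of_nonneg_right hlogn hlog2.le
      have h3 : D * (Real.log n / Real.log 2) ^ ee ≤
          D * (2 / Real.log 2) ^ ee * (Real.log x) ^ ee := by
        calc D * (Real.log n / Real.log 2) ^ ee ≤
              D * ((2 / Real.log 2) ^ ee * (Real.log x) ^ ee) :=
                mul_le_mul_of_nonneg_left h2 hD0.le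
          _ = D * (2 / Real.log 2) ^ ee * (Real.log x) ^ ee := by ring
      rw [add_mul]
      have h4 : (0 : ℝ) ≤ a0 := Nat.cast_nonneg _
      linarith

end Helper84K9.GP
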