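import Pool.Agent.Helper84K9.GP.Scale

/-! Sets without `k`-term geometric progressions and with small gaps. -/

set_option autoImplicit false

namespace Helper84K9.GP

open Finset Filter Topology

lemma analytic (q : ℕ) : ∃ L0 : ℕ, 32 ≤ L0 ∧ ∀ L : ℕ, L0 ≤ L →
    4 * ((L ^ 2 * (L ^ q) ^ 2 + 1 : ℕ) : ℝ) ^ 2 * (1 - 1 / (L : ℝ)) ^ (L ^ 2) ≤ 1 := by
  have h := Real.tendsto_pow_mul_exp_neg_atTop_nhds_zero (4 * q + 4)
  have h2 : ∀ᶠ x : ℝ in atTop, x ^ (4 * q + 4) * Real.exp (-x) < 1 / 16 :=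
    h.eventually_lt_const (by norm_num)
  have h3 := tendsto_natCast_atTop_atTop.eventually h2
  obtain ⟨N, hN⟩ := eventually_atTop.1 h3
  refine ⟨max N 32, le_max_right _ _, fun L hL => ?_⟩
  have hLN : N ≤ L := le_trans (le_max_left _ _) hL
  have hL32 : 32 ≤ L := le_trans (le_max_right _ _) hL
  have hL1 : (1 : ℝ) ≤ L := by exact_mod_cast (by omega : 1 ≤ L)
  have hnn : 0 ≤ (1 - 1 / (L : ℝ)) := by
    rw [sub_nonneg, div_le_one (by linarith)]
    exact hL1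
  have e1 : (1 - 1 / (L : ℝ)) ^ (L ^ 2) ≤ Real.exp (-(L : ℝ)) := by
    calc (1 - 1 / (L : ℝ)) ^ (L ^ 2) = ((1 - 1 / (L : ℝ)) ^ L) ^ L := by
          rw [← pow_mul, sq]
      _ ≤ (Real.exp (-1)) ^ L := by
          apply pow_le_pow_left₀ (pow_nonneg hnn _)
          exact Real.one_sub_div_pow_le_exp_neg hL1
      _ = Real.exp (-(L : ℝ)) := by
          rw [← Real.exp_nat_mul]; congr 1; ring
  have e2 : ((L ^ 2 * (L ^ q) ^ 2 + 1 : ℕ) : ℝ) ^ 2 ≤ 4 * (L : ℝ) ^ (4 * q + 4) := by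
    have e3 : ((L ^ 2 * (L ^ q) ^ 2 + 1 : ℕ) : ℝ) ≤ 2 * (L : ℝ) ^ (2 * q + 2) := by
      push_cast
      have e4 : (L : ℝ) ^ 2 * ((L : ℝ) ^ q) ^ 2 = (L : ℝ) ^ (2 * q + 2) := by
        rw [← pow_mul, ← pow_add]; congr 1; ring
      rw [e4]
      have e5 : (1 : ℝ) ≤ (L : ℝ) ^ (2 * q + 2) := one_le_pow₀ hL1
      linarith
    calc ((L ^ 2 * (L ^ q) ^ 2 + 1 : ℕ) : ℝ) ^ 2 ≤ (2 * (L : ℝ) ^ (2 * q + 2)) ^ 2 :=
          pow_le_pow_left₀ (by positivity) e3 2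
      _ = 4 * (L : ℝ) ^ (4 * q + 4) := by
          rw [mul_pow, ← pow_mul]; norm_num; ring
  have e6 := (hN L hLN).le
  calc 4 * ((L ^ 2 * (L ^ q) ^ 2 + 1 : ℕ) : ℝ) ^ 2 * (1 - 1 / (L : ℝ)) ^ (L ^ 2)
      ≤ 4 * (4 * (L : ℝ) ^ (4 * q + 4)) * Real.exp (-(L : ℝ)) := by
        apply mul_le_mul _ e1 (pow_nonneg hnn _) (by positivity)
        exact mul_le_mul_of_nonneg_left e2 (by norm_num)
    _ = 16 * ((L : ℝ) ^ (4 * q + 4) * Real.exp (-(L : ℝ))) := by ring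
    _ ≤ 16 * (1 / 16) := mul_le_mul_of_nonneg_left e6 (by norm_num)
    _ = 1 := by norm_num

/-- the construction at one scale, with the parameters chosen -/
theorem scale' (q : ℕ) (hq : 1 ≤ q) : ∃ L0 : ℕ, 32 ≤ L0 ∧ ∀ L : ℕ, L0 ≤ L →
    ∃ S : Set ℕ,
      (∀ b : ℕ → ℕ, (∀ j < 12 * q + 13, b j ∈ S) → (∀ j < 12 * q + 13, 0 < b j) →
        (∀ j < 12 * q + 13, b j < 2 ^ (L ^ q)) →
        (∀ j, j + 2 < 12 * q + 13 → b j * b (j + 2) = b (j + 1) ^ 2) → b 0 = b 1) ∧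
      (∀ x : ℕ, (2 * (4 * L ^ (q + 2))) ^ 8 ≤ x → x + 4 * L ^ (q + 2) ≤ 2 ^ (L ^ q) →
        ∃ n ∈ S, x ≤ n ∧ n < x + 4 * L ^ (q + 2)) := by
  obtain ⟨L0, hL0, h⟩ := analytic q
  refine ⟨L0, hL0, fun L hL => ?_⟩
  have hL32 : 32 ≤ L := hL0.trans hL
  have hLpos : 0 < L := by omega
  have hL1 : (1 : ℝ) ≤ L := by exact_mod_cast (by omega : 1 ≤ L)
  apply scale (12 * q + 13) (L ^ q) L (L ^ 2) (4 * L ^ (q + 2)) (by omega) (by omega)
    (Nat.one_le_pow _ _ hLpos) (by nlinarith)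
  · apply le_of_eq
    rw [← pow_add, add_comm 2 q]
  · have : 32 ≤ L ^ (q + 2) := by
      calc 32 ≤ L := hL32
        _ = L ^ 1 := (pow_one L).symm
        _ ≤ L ^ (q + 2) := Nat.pow_le_pow_right hLpos (by omega)
    omega
  · have e3 : ((L ^ 2 * (L ^ q) ^ 2 + 1 : ℕ) : ℝ) ≤ 2 * (L : ℝ) ^ (2 * q + 2) := by
      push_cast
      have e4 : (L : ℝ) ^ 2 * ((L : ℝ) ^ q) ^ 2 = (L : ℝ) ^ (2 * q + 2) := by
        rw [← pow_mul, ← pow_add]; congr 1; ring
      rw [e4]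
      have e5 : (1 : ℝ) ≤ (L : ℝ) ^ (2 * q + 2) := one_le_pow₀ hL1
      linarith
    have e6 : (12 * q + 13 + 1) / 2 = 6 * q + 7 := by omega
    rw [e6]
    calc 4 * ((L ^ 2 * (L ^ q) ^ 2 + 1 : ℕ) : ℝ) ^ 3 ≤ 4 * (2 * (L : ℝ) ^ (2 * q + 2)) ^ 3 :=
          mul_le_mul_of_nonneg_left (pow_le_pow_left₀ (by positivity) e3 3) (by norm_num)
      _ = 32 * (L : ℝ) ^ (6 * q + 6) := by
          rw [mul_pow, ← pow_mul]; norm_num; ring
      _ ≤ (L : ℝ) * (L : ℝ) ^ (6 * q + 6) := by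
          apply mul_le_mul_of_nonneg_right _ (by positivity)
          exact_mod_cast hL32
      _ = (L : ℝ) ^ (6 * q + 7) := by
          rw [← pow_succ']
  · exact h L hL

lemma gp_cross (k : ℕ) (b : ℕ → ℕ) (hpos : ∀ j < k, 0 < b j)
    (hgp : ∀ j, j + 2 < k → b j * b (j + 2) = b (j + 1) ^ 2) :
    ∀ j, j + 1 < k → b 0 * b (j + 1) = b 1 * b j := by
  intro j
  induction j with
  | zero => intro _; ring
  | succ j ih =>
    intro hj
    have h1 := ih (by omega)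
    have h2 := hgp j (by omega)
    have h3 := hpos j (by omega)
    apply Nat.eq_of_mul_eq_mul_left h3
    calc b j * (b 0 * b (j + 1 + 1)) = b 0 * (b j * b (j + 2)) := by ring
      _ = b 0 * b (j + 1) ^ 2 := by rw [h2]
      _ = (b 0 * b (j + 1)) * b (j + 1) := by ring
      _ = (b 1 * b j) * b (j + 1) := by rw [h1]
      _ = b j * (b 1 * b (j + 1)) := by ring

lemma gp_le (k : ℕ) (b : ℕ → ℕ) (hpos : ∀ j < k, 0 < b j)
    (hgp : ∀ j, j + 2 < k → b j * b (j + 2) = b (j + 1) ^ 2) (hk : 2 ≤ k) :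
    ∀ j, j + 1 < k → b (j + 1) ≤ b 1 ^ (j + 1) := by
  intro j
  induction j with
  | zero => intro _; simp
  | succ j ih =>
    intro hj
    have h1 := gp_cross k b hpos hgp (j + 1) hj
    have h2 := hpos 0 (by omega)
    calc b (j + 1 + 1) ≤ b 0 * b (j + 1 + 1) := Nat.le_mul_of_pos_left _ h2
      _ = b 1 * b (j + 1) := h1
      _ ≤ b 1 * b 1 ^ (j + 1) := Nat.mul_le_mul_left _ (ih (by omega))
      _ = b 1 ^ (j + 1 + 1) := by rw [pow_succ]; ring

lemma gp_mono (k : ℕ) (b : ℕ → ℕ) (hpos : ∀ j < k, 0 < b j)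
    (hgp : ∀ j, j + 2 < k → b j * b (j + 2) = b (j + 1) ^ 2) (h01 : b 0 < b 1) :
    ∀ j, j + 1 < k → b j < b (j + 1) := by
  intro j hj
  have h1 := gp_cross k b hpos hgp j hj
  have h2 := hpos j (by omega)
  have h3 := hpos 0 (by omega)
  by_contra hcon
  push Not at hcon
  have h4 : b 0 * b (j + 1) ≤ b 0 * b j := Nat.mul_le_mul_left _ hcon
  have h5 : b 0 * b j < b 1 * b j := Nat.mul_lt_mul_of_pos_right h01 h2
  omega

lemma gp_mono_le (k : ℕ) (b : ℕ → ℕ) (hpos : ∀ j < k, 0 < b j)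
    (hgp : ∀ j, j + 2 < k → b j * b (j + 2) = b (j + 1) ^ 2) (h01 : b 0 < b 1) :
    ∀ i j, i ≤ j → j < k → b i ≤ b j := by
  intro i j hij
  induction j, hij using Nat.le_induction with
  | base => intro _; exact le_rfl
  | succ j hij ih =>
    intro hj
    exact (ih (by omega)).trans (gp_mono k b hpos hgp h01 j hj).le

lemma scale_unique (K a a' x : ℕ) (hK : 2 ≤ K) (h1 : K ^ a ≤ x) (h2 : x < K ^ (a + 1))
    (h1' : K ^ a' ≤ x) (h2' : x < K ^ (a' + 1)) : a = a' := by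
  have h3 : a < a' + 1 := (Nat.pow_lt_pow_iff_right (by omega)).1 (lt_of_le_of_lt h1 h2')
  have h4 : a' < a + 1 := (Nat.pow_lt_pow_iff_right (by omega)).1 (lt_of_le_of_lt h1' h2)
  omega

/-- the union of the constructions at all the scales `K ^ i ≤ log n < K ^ (i + 1)` has no
geometric progressions with `2 m + 1` terms -/
lemma no_gp (m K : ℕ) (hm : 2 ≤ m) (hK : 2 * m + 1 ≤ K) (i0 : ℕ) (S : ℕ → Set ℕ)
    (hS : ∀ i, i0 ≤ i → ∀ b : ℕ → ℕ, (∀ j < m, b j ∈ S i) → (∀ j < m, 0 < b j) →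
        (∀ j < m, b j < 2 ^ (K ^ (i + 1))) →
        (∀ j, j + 2 < m → b j * b (j + 2) = b (j + 1) ^ 2) → b 0 = b 1)
    (b : ℕ → ℕ)
    (hb : ∀ j < 2 * m + 1, 0 < b j ∧ ∃ i, i0 ≤ i ∧ K ^ i ≤ Nat.log 2 (b j) ∧
      Nat.log 2 (b j) < K ^ (i + 1) ∧ b j ∈ S i)
    (hgp : ∀ j, j + 2 < 2 * m + 1 → b j * b (j + 2) = b (j + 1) ^ 2) (h01 : b 0 < b 1) :
    False := by
  have hpos : ∀ j < 2 * m + 1, 0 < b j := fun j hj => (hb j hj).1
  obtain ⟨-, i, hi0, hi1, hi2, -⟩ := hb 1 (by omega)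
  have hlast : Nat.log 2 (b (2 * m)) < K ^ (i + 1 + 1) := by
    rw [Nat.log_lt_iff_lt_pow (by norm_num) (hpos _ (by omega)).ne']
    have h1 := gp_le (2 * m + 1) b hpos hgp (by omega) (2 * m - 1) (by omega)
    have e : 2 * m - 1 + 1 = 2 * m := by omega
    rw [e] at h1
    have h2 : b 1 < 2 ^ (Nat.log 2 (b 1) + 1) := Nat.lt_pow_succ_log_self (by norm_num) _
    calc b (2 * m) ≤ b 1 ^ (2 * m) := h1
      _ < (2 ^ (Nat.log 2 (b 1) + 1)) ^ (2 * m) := Nat.pow_lt_pow_left h2 (by omega)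
      _ = 2 ^ ((Nat.log 2 (b 1) + 1) * (2 * m)) := by rw [← pow_mul]
      _ ≤ 2 ^ (K ^ (i + 1 + 1)) := by
          apply Nat.pow_le_pow_right (by norm_num)
          rw [pow_succ]
          exact Nat.mul_le_mul (by omega) (by omega)
  have hmono := gp_mono_le (2 * m + 1) b hpos hgp h01
  have hidx : ∀ j, 1 ≤ j → j < 2 * m + 1 → ∀ a, K ^ a ≤ Nat.log 2 (b j) →
      Nat.log 2 (b j) < K ^ (a + 1) → a = i ∨ a = i + 1 := by
    intro j hj1 hj2 a ha1 ha2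
    have h3 : Nat.log 2 (b 1) ≤ Nat.log 2 (b j) := Nat.log_mono_right (hmono 1 j hj1 hj2)
    have h4 : Nat.log 2 (b j) ≤ Nat.log 2 (b (2 * m)) :=
      Nat.log_mono_right (hmono j (2 * m) (by omega) (by omega))
    have h5 : i < a + 1 := (Nat.pow_lt_pow_iff_right (by omega : 1 < K)).1
      (lt_of_le_of_lt (hi1.trans h3) ha2)
    have h6 : a < i + 1 + 1 := (Nat.pow_lt_pow_iff_right (by omega : 1 < K)).1
      (lt_of_le_of_lt (ha1.trans h4) hlast)
    omega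
  -- the scale of the middle term
  obtain ⟨-, a, ha0, ha1, ha2, haS⟩ := hb m (by omega)
  -- a run of `m` terms at one scale gives a contradiction
  have hrun : ∀ s a : ℕ, s + m ≤ 2 * m + 1 → i0 ≤ a → (∀ j < m, K ^ a ≤ Nat.log 2 (b (s + j)) ∧
      Nat.log 2 (b (s + j)) < K ^ (a + 1)) → False := by
    intro s a hs hia hj
    have h := hS a hia (fun j => b (s + j)) (by
      intro j hjm
      obtain ⟨-, a', ha0', ha1', ha2', haS'⟩ := hb (s + j) (by omega)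
      obtain ⟨h1, h2⟩ := hj j hjm
      have : a = a' := scale_unique K a a' _ (by omega) h1 h2 ha1' ha2'
      rw [this]
      exact haS') (fun j hjm => hpos _ (by omega)) (by
      intro j hjm
      have h2 := (hj j hjm).2
      rwa [Nat.log_lt_iff_lt_pow (by norm_num) (hpos _ (by omega)).ne'] at h2) (by
      intro j hjm
      exact hgp (s + j) (by omega))
    have h2 := gp_mono (2 * m + 1) b hpos hgp h01 s (by omega)
    simp only [add_zero] at h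
    omega
  rcases hidx m (by omega) (by omega) a ha1 ha2 with rfl | rfl
  · -- the terms `1, ..., m`
    apply hrun 1 a (by omega) ha0
    intro j hj
    constructor
    · exact hi1.trans (Nat.log_mono_right (hmono 1 (1 + j) (by omega) (by omega)))
    · exact lt_of_le_of_lt (Nat.log_mono_right (hmono (1 + j) m (by omega) (by omega))) ha2
  · -- the terms `m, ..., 2 m - 1`
    apply hrun m (i + 1) (by omega) ha0
    intro j hj
    constructor
    · exact ha1.trans (Nat.log_mono_right (hmono m (m + j) (by omega) (by omega)))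
    · exact lt_of_le_of_lt (Nat.log_mono_right (hmono (m + j) (2 * m) (by omega) (by omega))) hlast

end Helper84K9.GP
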