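import Mathlib

/-! Elements of a short interval with a large prime factor. -/

set_option autoImplicit false

namespace Helper84K9.GP

open Finset

open Classical in
/-- the elements of `[x, x + G)` with a prime factor larger than `G` -/
noncomputable def rough (G x : ℕ) : Finset ℕ :=
  (Finset.Ico x (x + G)).filter (fun n => ∃ p, p.Prime ∧ G < p ∧ p ∣ n)

lemma prime_count (G : ℕ) : ((range (G + 1)).filter Nat.Prime).card ≤ G / 2 + 1 := by
  have h : ((range (G + 1)).filter Nat.Prime).card ≤ (range (G / 2 + 1)).card := by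
    apply Finset.card_le_card_of_injOn (fun p => if p = 2 then 0 else p / 2)
    · intro p hp
      simp only [coe_filter, mem_range, Set.mem_ofPred_eq] at hp
      simp only [coe_range, Set.mem_Iio]
      split_ifs
      · omega
      · have := hp.1; omega
    · intro p hp p' hp' h
      simp only [coe_filter, mem_range, Set.mem_ofPred_eq] at hp hp'
      simp only at h
      have h2 := hp.2.two_le
      have h2' := hp'.2.two_le
      have ho : p = 2 ∨ p % 2 = 1 := hp.2.eq_two_or_odd
      have ho' : p' = 2 ∨ p' % 2 = 1 := hp'.2.eq_two_or_odd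
      split_ifs at h <;> omega
  simpa using h

lemma prod_le_pow {ι : Type} (s : Finset ι) (f : ι → ℕ) (T : Finset ι) (N : ℕ) (hN : 1 ≤ N)
    (h1 : ∀ i ∈ s, i ∉ T → f i ≤ 1) (h2 : ∀ i ∈ s, i ∈ T → f i ≤ N) :
    ∏ i ∈ s, f i ≤ N ^ T.card := by
  classical
  calc ∏ i ∈ s, f i ≤ ∏ i ∈ s, (if i ∈ T then N else 1) := by
        apply Finset.prod_le_prod'
        intro i hi
        split_ifs with h
        · exact h2 i hi h
        · exact h1 i hi h
    _ = N ^ (s.filter (fun i => i ∈ T)).card := by
        rw [← Finset.prod_filter, Finset.prod_const]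
    _ ≤ N ^ T.card := by
        apply Nat.pow_le_pow_right hN
        apply Finset.card_le_card
        intro i hi
        exact (Finset.mem_filter.1 hi).2

lemma rough_card (G x : ℕ) (hG : 20 ≤ G) (hx : (2 * G) ^ 8 ≤ x) :
    G ≤ 4 * (rough G x).card := by
  classical
  by_contra hcon
  push Not at hcon
  have hx0 : 1 ≤ x := le_trans (Nat.one_le_pow _ _ (by omega)) hx
  set N := x + G - 1 with hN
  have hGN : G ≤ N := by omega
  have hN1 : 1 ≤ N := by omega
  have hxG : G ≤ x := by
    calc G ≤ 2 * G := by omega
      _ = (2 * G) ^ 1 := (pow_one _).symm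
      _ ≤ (2 * G) ^ 8 := Nat.pow_le_pow_right (by omega) (by norm_num)
      _ ≤ x := hx
  set C := N.choose G with hC
  have hCpos : 0 < C := Nat.choose_pos hGN
  have hasc : x.ascFactorial G = G.factorial * C := by
    rw [Nat.ascFactorial_eq_factorial_mul_choose']
  have hascprod : x.ascFactorial G = ∏ i ∈ range G, (x + i) := Nat.ascFactorial_eq_prod_range _ _
  -- factorization of C at large primes
  have hfac : ∀ p, G < p → C.factorization p = ∑ i ∈ range G, (x + i).factorization p := by
    intro p hp
    have h1 : (x.ascFactorial G).factorization p = C.factorization p := by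
      rw [hasc, Nat.factorization_mul (Nat.factorial_ne_zero _) hCpos.ne']
      simp only [Finsupp.coe_add, Pi.add_apply]
      rw [Nat.factorization_factorial_eq_zero_of_lt hp, zero_add]
    rw [← h1, hascprod, Nat.factorization_prod]
    · simp
    · intro i _
      omega
  have hprod : ∏ p ∈ range (N + 1), p ^ C.factorization p = C :=
    Nat.prod_pow_factorization_choose N G hGN
  have hsplit : C = (∏ p ∈ range (G + 1), p ^ C.factorization p) *
      ∏ p ∈ Ico (G + 1) (N + 1), p ^ C.factorization p := by
    rw [Finset.prod_range_mul_prod_Ico _ (by omega : G + 1 ≤ N + 1), hprod]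
  have hA : (∏ p ∈ range (G + 1), p ^ C.factorization p) ≤ N ^ (G / 2 + 1) := by
    calc (∏ p ∈ range (G + 1), p ^ C.factorization p) ≤
        N ^ ((range (G + 1)).filter Nat.Prime).card := by
          apply prod_le_pow _ _ _ _ hN1
          · intro p hp hp2
            have : ¬ p.Prime := fun h => hp2 (Finset.mem_filter.2 ⟨hp, h⟩)
            rw [Nat.factorization_eq_zero_of_not_prime _ this, pow_zero]
          · intro p _ _
            exact Nat.pow_factorization_choose_le (by omega)
      _ ≤ N ^ (G / 2 + 1) := Nat.pow_le_pow_right hN1 (prime_count G)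
  have hB : (∏ p ∈ Ico (G + 1) (N + 1), p ^ C.factorization p) ≤ N ^ (rough G x).card := by
    have h1 : (∏ p ∈ Ico (G + 1) (N + 1), p ^ C.factorization p) =
        ∏ i ∈ range G, ∏ p ∈ Ico (G + 1) (N + 1), p ^ (x + i).factorization p := by
      rw [Finset.prod_comm]
      apply Finset.prod_congr rfl
      intro p hp
      rw [hfac p (by have := (Finset.mem_Ico.1 hp).1; omega), Finset.prod_pow_eq_pow_sum]
    have h2 : ∏ i ∈ range G, ∏ p ∈ Ico (G + 1) (N + 1), p ^ (x + i).factorization p =
        ∏ n ∈ Ico x (x + G), ∏ p ∈ Ico (G + 1) (N + 1), p ^ n.factorization p := by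
      rw [Finset.prod_Ico_eq_prod_range]
      simp
    rw [h1, h2]
    apply prod_le_pow _ _ _ _ hN1
    · intro n hn hn2
      apply le_of_eq
      apply Finset.prod_eq_one
      intro p hp
      by_cases hpp : p.Prime
      · have hnd : ¬ p ∣ n := by
          intro hd
          apply hn2
          unfold rough
          rw [Finset.mem_filter]
          exact ⟨hn, p, hpp, by have := (Finset.mem_Ico.1 hp).1; omega, hd⟩
        rw [Nat.factorization_eq_zero_of_not_dvd hnd, pow_zero]
      · rw [Nat.factorization_eq_zero_of_not_prime _ hpp, pow_zero]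
    · intro n hn _
      have hn' := Finset.mem_Ico.1 hn
      have hn0 : n ≠ 0 := by omega
      have hdvd : (∏ p ∈ Ico (G + 1) (N + 1), p ^ n.factorization p) ∣ n := by
        have h3 : ∏ p ∈ range (N + 1), p ^ n.factorization p = n := by
          have h4 := Nat.prod_factorization_pow_eq_self hn0
          conv_rhs => rw [← h4]
          rw [Finsupp.prod]
          symm
          apply Finset.prod_subset
          · intro p hp
            rw [Nat.support_factorization] at hp
            have := Nat.le_of_mem_primeFactors hp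
            rw [Finset.mem_range]
            omega
          · intro p _ hp
            rw [Finsupp.notMem_support_iff] at hp
            rw [hp, pow_zero]
        conv_rhs => rw [← h3]
        apply Finset.prod_dvd_prod_of_subset
        intro p hp
        rw [Finset.mem_range]
        exact (Finset.mem_Ico.1 hp).2
      have := Nat.le_of_dvd (by omega) hdvd
      omega
  have hCle : C ≤ N ^ (G / 2 + 1 + (rough G x).card) := by
    rw [hsplit, pow_add]
    exact Nat.mul_le_mul hA hB
  have hlow : x ^ G ≤ G ^ G * C := by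
    calc x ^ G = ∏ i ∈ range G, x := by rw [Finset.prod_const, Finset.card_range]
      _ ≤ ∏ i ∈ range G, (x + i) := Finset.prod_le_prod' (fun i _ => by omega)
      _ = G.factorial * C := by rw [← hascprod, hasc]
      _ ≤ G ^ G * C := Nat.mul_le_mul_right _ (Nat.factorial_le_pow G)
  set e := G / 2 + 1 + (rough G x).card with he
  have he1 : 8 * e < 7 * G := by omega
  have h5 : x ^ G ≤ G ^ G * (2 * x) ^ e := by
    calc x ^ G ≤ G ^ G * C := hlow
      _ ≤ G ^ G * N ^ e := Nat.mul_le_mul_left _ hCle
      _ ≤ G ^ G * (2 * x) ^ e := Nat.mul_le_mul_left _ (Nat.pow_le_pow_left (by omega) e)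
  have h6 : x ^ G = x ^ (G - e) * x ^ e := by
    rw [← pow_add]; congr 1; omega
  have h7 : x ^ (G - e) * x ^ e ≤ (G ^ G * 2 ^ e) * x ^ e := by
    rw [← h6]
    calc x ^ G ≤ G ^ G * (2 * x) ^ e := h5
      _ = (G ^ G * 2 ^ e) * x ^ e := by rw [mul_pow]; ring
  have h8 : x ^ (G - e) ≤ G ^ G * 2 ^ e :=
    Nat.le_of_mul_le_mul_right h7 (Nat.pow_pos (by omega))
  have h9 : G ^ G * 2 ^ e ≤ (2 * G) ^ G := by
    rw [mul_pow, mul_comm]
    exact Nat.mul_le_mul_right _ (Nat.pow_le_pow_right (by norm_num) (by omega))
  have h10 : (2 * G) ^ (8 * (G - e)) ≤ (2 * G) ^ G := by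
    calc (2 * G) ^ (8 * (G - e)) = ((2 * G) ^ 8) ^ (G - e) := by rw [pow_mul]
      _ ≤ x ^ (G - e) := Nat.pow_le_pow_left hx _
      _ ≤ _ := h8.trans h9
  have h11 : 8 * (G - e) ≤ G := (Nat.pow_le_pow_iff_right (by omega)).1 h10
  omega

end Helper84K9.GP
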