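import Pool.Agent.Helper84K9.GP.Color
import Pool.Agent.Helper84K9.GP.Rough

/-! The construction at one scale. -/

set_option autoImplicit false

namespace Helper84K9.GP

open Finset

/-- the weighted sum of the squares of the exponents -/
def F {N R : ℕ} (ω : Fin N → Fin R) (n : ℕ) : ℕ :=
  ∑ p : Fin N, ((ω p).val + 1) * (n.factorization p.val) ^ 2

lemma prod_fact (N n : ℕ) (hn : n ≠ 0) (hN : n < N) :
    ∏ p ∈ range N, p ^ n.factorization p = n := by
  have h4 := Nat.prod_factorization_pow_eq_self hn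
  conv_rhs => rw [← h4]
  rw [Finsupp.prod]
  symm
  apply Finset.prod_subset
  · intro p hp
    rw [Nat.support_factorization] at hp
    have := Nat.le_of_mem_primeFactors hp
    rw [Finset.mem_range]
    omega
  · intro p _ hp
    rw [Finsupp.notMem_support_iff] at hp
    rw [hp, pow_zero]

lemma sum_fact_le (l n : ℕ) (hn : n ≠ 0) (hN : n < 2 ^ l) :
    ∑ p : Fin (2 ^ l), n.factorization p.val ≤ l := by
  rw [Fin.sum_univ_eq_sum_range (fun p => n.factorization p) (2 ^ l)]
  have h1 : 2 ^ (∑ p ∈ range (2 ^ l), n.factorization p) ≤ n := by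
    conv_rhs => rw [← prod_fact (2 ^ l) n hn hN]
    rw [← Finset.prod_pow_eq_pow_sum]
    apply Finset.prod_le_prod'
    intro p _
    by_cases hp : p.Prime
    · exact Nat.pow_le_pow_left hp.two_le _
    · rw [Nat.factorization_eq_zero_of_not_prime _ hp, pow_zero, pow_zero]
  have h2 : 2 ^ (∑ p ∈ range (2 ^ l), n.factorization p) < 2 ^ l := lt_of_le_of_lt h1 hN
  exact ((Nat.pow_lt_pow_iff_right (by norm_num)).1 h2).le

lemma F_le {l R : ℕ} (ω : Fin (2 ^ l) → Fin R) (n : ℕ) (hn : n ≠ 0) (hN : n < 2 ^ l) :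
    F ω n ≤ R * l ^ 2 := by
  unfold F
  calc ∑ p : Fin (2 ^ l), ((ω p).val + 1) * (n.factorization p.val) ^ 2
      ≤ ∑ p : Fin (2 ^ l), R * (n.factorization p.val * ∑ q : Fin (2 ^ l), n.factorization q.val) := by
        apply Finset.sum_le_sum
        intro p _
        apply Nat.mul_le_mul
        · have := (ω p).isLt; omega
        · rw [sq]
          apply Nat.mul_le_mul_left
          exact Finset.single_le_sum (f := fun q : Fin (2 ^ l) => n.factorization q.val)
            (fun _ _ => Nat.zero_le _) (mem_univ p)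
    _ = R * ((∑ p : Fin (2 ^ l), n.factorization p.val) *
          ∑ q : Fin (2 ^ l), n.factorization q.val) := by
        rw [← Finset.mul_sum, ← Finset.sum_mul]
    _ ≤ R * l ^ 2 := by
        rw [sq]
        exact Nat.mul_le_mul_left _ (Nat.mul_le_mul (sum_fact_le l n hn hN) (sum_fact_le l n hn hN))

lemma F_update {N R : ℕ} (ω : Fin N → Fin R) (c : Fin N) (t : Fin R) (n : ℕ) :
    F (Function.update ω c t) n =
      (∑ p ∈ univ.erase c, ((ω p).val + 1) * (n.factorization p.val) ^ 2) +
        (n.factorization c.val) ^ 2 * (t.val + 1) := by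
  unfold F
  rw [← Finset.sum_erase_add _ _ (mem_univ c)]
  congr 1
  · apply Finset.sum_congr rfl
    intro p hp
    rw [Function.update_of_ne (Finset.ne_of_mem_erase hp)]
  · rw [Function.update_self, mul_comm]

lemma F_update_zero {N R : ℕ} (ω : Fin N → Fin R) (c : Fin N) (t : Fin R) (n : ℕ)
    (h : n.factorization c.val = 0) : F (Function.update ω c t) n = F ω n := by
  rw [F_update, h]
  unfold F
  rw [← Finset.sum_erase_add _ _ (mem_univ c), h]
  simp

lemma arith (m : ℕ) (u : ℕ → ℤ) (h : ∀ j, j + 2 < m → u j + u (j + 2) = 2 * u (j + 1)) :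
    ∀ j, j < m → u j = u 0 + j * (u 1 - u 0) := by
  intro j
  induction j using Nat.strong_induction_on with
  | _ j ih =>
    intro hj
    match j, ih, hj with
    | 0, _, _ => simp
    | 1, _, _ => simp
    | j + 2, ih, hj =>
      have e1 := ih j (by omega) (by omega)
      have e2 := ih (j + 1) (by omega) (by omega)
      have e3 := h j hj
      push_cast at e2 ⊢
      linear_combination e3 - e1 + 2 * e2

lemma quad_F {N R : ℕ} (ω : Fin N → Fin R) (m : ℕ) (b : ℕ → ℕ)
    (hpos : ∀ j < m, 0 < b j) (hlt : ∀ j < m, b j < N) (hm : 2 ≤ m)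
    (hgp : ∀ j, j + 2 < m → b j * b (j + 2) = b (j + 1) ^ 2) (hne : b 0 ≠ b 1) :
    ∃ A B C : ℤ, 0 < C ∧ ∀ j, j < m → A + B * (j : ℤ) + C * (j : ℤ) ^ 2 = (F ω (b j) : ℤ) := by
  have hfac : ∀ p : ℕ, ∀ j, j < m → ((b j).factorization p : ℤ) =
      (b 0).factorization p + j * (((b 1).factorization p : ℤ) - (b 0).factorization p) := by
    intro p
    apply arith m (fun j => ((b j).factorization p : ℤ))
    intro j hj
    have h0 := hpos j (by omega)
    have h1 := hpos (j + 1) (by omega)
    have h2 := hpos (j + 2) hj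
    have e : (b j * b (j + 2)).factorization p = (b (j + 1) ^ 2).factorization p := by
      rw [hgp j hj]
    rw [Nat.factorization_mul h0.ne' h2.ne', Nat.factorization_pow] at e
    simp only [Finsupp.coe_add, Pi.add_apply, Finsupp.coe_smul, Pi.smul_apply, smul_eq_mul] at e
    exact_mod_cast e
  let e0 : Fin N → ℤ := fun p => ((b 0).factorization p.val : ℤ)
  let d : Fin N → ℤ := fun p => ((b 1).factorization p.val : ℤ) - (b 0).factorization p.val
  let w : Fin N → ℤ := fun p => ((ω p).val : ℤ) + 1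
  have hw : ∀ p, 0 < w p := fun p => by simp only [w]; positivity
  refine ⟨∑ p, w p * e0 p ^ 2, ∑ p, w p * (2 * e0 p * d p), ∑ p, w p * d p ^ 2, ?_, ?_⟩
  · by_contra hcon
    push Not at hcon
    have hnn : ∀ p ∈ (univ : Finset (Fin N)), 0 ≤ w p * d p ^ 2 := fun p _ =>
      mul_nonneg (hw p).le (sq_nonneg _)
    have hz := (Finset.sum_eq_zero_iff_of_nonneg hnn).1
      (le_antisymm hcon (Finset.sum_nonneg hnn))
    apply hne
    have h0 := hpos 0 (by omega)
    have h1 := hpos 1 (by omega)
    apply Nat.eq_of_factorization_eq h0.ne' h1.ne'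
    intro p
    by_cases hp : p < N
    · have h3 := hz ⟨p, hp⟩ (mem_univ _)
      have h4 : d ⟨p, hp⟩ = 0 := by
        rcases mul_eq_zero.1 h3 with h | h
        · exact absurd h (hw _).ne'
        · exact pow_eq_zero_iff (by norm_num) |>.1 h
      simp only [d] at h4
      omega
    · have h3 : ∀ j < m, (b j).factorization p = 0 := by
        intro j hj
        apply Nat.factorization_eq_zero_of_lt
        have := hlt j hj
        omega
      rw [h3 0 (by omega), h3 1 (by omega)]
  · intro j hj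
    unfold F
    push_cast
    rw [Finset.sum_mul, Finset.sum_mul, ← Finset.sum_add_distrib, ← Finset.sum_add_distrib]
    apply Finset.sum_congr rfl
    intro p _
    rw [hfac p.val j hj]
    simp only [w, e0, d]
    ring

theorem scale (m l L R G : ℕ) (hm : 3 ≤ m) (hL : 2 ≤ L) (hl : 1 ≤ l) (hR : 2 ≤ R)
    (hG : 4 * (R * l) ≤ G) (hG20 : 20 ≤ G)
    (h1 : 4 * ((R * l ^ 2 + 1 : ℕ) : ℝ) ^ 3 ≤ (L : ℝ) ^ ((m + 1) / 2))
    (h2 : 4 * ((R * l ^ 2 + 1 : ℕ) : ℝ) ^ 2 * (1 - 1 / (L : ℝ)) ^ R ≤ 1) :
    ∃ S : Set ℕ,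
      (∀ b : ℕ → ℕ, (∀ j < m, b j ∈ S) → (∀ j < m, 0 < b j) → (∀ j < m, b j < 2 ^ l) →
        (∀ j, j + 2 < m → b j * b (j + 2) = b (j + 1) ^ 2) → b 0 = b 1) ∧
      (∀ x : ℕ, (2 * G) ^ 8 ≤ x → x + G ≤ 2 ^ l → ∃ n ∈ S, x ≤ n ∧ n < x + G) := by
  classical
  obtain ⟨g, hg1, hg2⟩ := exists_color m (R * l ^ 2 + 1) L R hm hL h1 h2
  have hR0 : (0 : ℝ) < R := by exact_mod_cast (by omega : 0 < R)
  -- choose the weights
  have key : ∃ ω : Fin (2 ^ l) → Fin R, ∀ x ∈ (range (2 ^ l)).filter (fun x => (2 * G) ^ 8 ≤ x ∧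
      x + G ≤ 2 ^ l), ω ∉ (univ.filter (fun ω : Fin (2 ^ l) → Fin R =>
        ∀ n ∈ rough G x, ¬ hit g (F ω n))) := by
    apply exists_good_sum
    have hbound : ∀ x ∈ (range (2 ^ l)).filter (fun x => (2 * G) ^ 8 ≤ x ∧ x + G ≤ 2 ^ l),
        ((univ.filter (fun ω : Fin (2 ^ l) → Fin R =>
          ∀ n ∈ rough G x, ¬ hit g (F ω n))).card : ℝ) ≤
          Real.exp (-(l : ℝ)) * Fintype.card (Fin (2 ^ l) → Fin R) := by
      intro x hx
      obtain ⟨-, hx1, hx2⟩ := mem_filter.1 hx
      have hxpos : 0 < x := lt_of_lt_of_le (Nat.pow_pos (by omega)) hx1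
      have hmem : ∀ n ∈ rough G x, x ≤ n ∧ n < x + G ∧ ∃ p : Fin (2 ^ l), p.val.Prime ∧ G < p.val ∧
          p.val ∣ n := by
        intro n hn
        unfold rough at hn
        obtain ⟨hn1, p, hp, hpG, hpn⟩ := mem_filter.1 hn
        obtain ⟨hn2, hn3⟩ := mem_Ico.1 hn1
        have hpn' := Nat.le_of_dvd (by omega) hpn
        exact ⟨hn2, hn3, ⟨p, by omega⟩, hp, hpG, hpn⟩
      let c : ℕ → Fin (2 ^ l) := fun n =>
        if h : ∃ p : Fin (2 ^ l), p.val.Prime ∧ G < p.val ∧ p.val ∣ n then h.choose
        else ⟨0, by positivity⟩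
      have hc : ∀ n ∈ rough G x, (c n).val.Prime ∧ G < (c n).val ∧ (c n).val ∣ n := by
        intro n hn
        have h := (hmem n hn).2.2
        simp only [c]
        rw [dif_pos h]
        exact h.choose_spec
      have hmain := card_inter_le (κ := Fin R) (fun (n : ℕ) (ω : Fin (2 ^ l) → Fin R) =>
        ¬ hit g (F ω n)) c (rough G x) (by
          intro a ha a' ha' hne ω t
          have h3 : a'.factorization (c a).val = 0 := by
            apply Nat.factorization_eq_zero_of_not_dvd
            intro hd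
            obtain ⟨-, hcG, hca⟩ := hc a ha
            obtain ⟨ha1, ha2, -⟩ := hmem a ha
            obtain ⟨ha1', ha2', -⟩ := hmem a' ha'
            rcases Nat.lt_or_ge a a' with hlt | hge
            · have h4 := Nat.dvd_sub hd hca
              have h5 := Nat.le_of_dvd (by omega) h4
              omega
            · have h4 := Nat.dvd_sub hca hd
              have h5 := Nat.le_of_dvd (by omega) h4
              omega
          simp only [F_update_zero ω (c a) t a' h3]) (R - 1) (by
          intro a ha ω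
          obtain ⟨ha1, ha2, -⟩ := hmem a ha
          obtain ⟨hcp, hcG, hca⟩ := hc a ha
          have hv : 1 ≤ a.factorization (c a).val := by
            rw [← Nat.succ_le_iff] at *
            exact Nat.succ_le_iff.2 (hcp.factorization_pos_of_dvd (by omega) hca)
          set A0 := ∑ p ∈ univ.erase (c a), ((ω p).val + 1) * (a.factorization p.val) ^ 2 with hA0
          have hM : A0 + (a.factorization (c a).val) ^ 2 * R < R * l ^ 2 + 1 := by
            have h3 := F_le (Function.update ω (c a) ⟨R - 1, by omega⟩) a (by omega) (by omega)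
            rw [F_update] at h3
            have h4 : (R - 1) + 1 = R := by omega
            simp only [h4] at h3
            omega
          obtain ⟨t, ht1, ht2, hht⟩ := hg2 A0 _ hv hM
          have hsub : (univ.filter (fun t : Fin R => ¬ hit g (F (Function.update ω (c a) t) a))) ⊆
              univ.erase ⟨t - 1, by omega⟩ := by
            intro s hs
            rw [mem_erase]
            refine ⟨?_, mem_univ _⟩
            rintro rfl
            apply (mem_filter.1 hs).2
            rw [F_update]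
            have h4 : (t - 1) + 1 = t := by omega
            simp only [h4]
            exact hht
          have h5 := Finset.card_le_card hsub
          rw [card_erase_of_mem (mem_univ _), card_univ, Fintype.card_fin] at h5
          exact h5)
      rw [Fintype.card_fin] at hmain
      have hcount := rough_card G x hG20 hx1
      have hgl : R * l ≤ (rough G x).card := by omega
      set k := (rough G x).card with hk
      set Z := (univ.filter (fun ω : Fin (2 ^ l) → Fin R => ∀ n ∈ rough G x, ¬ hit g (F ω n))).card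
        with hZ
      have hmain' : (Z : ℝ) * (R : ℝ) ^ k ≤ ((R : ℝ) - 1) ^ k *
          Fintype.card (Fin (2 ^ l) → Fin R) := by
        have h3 : (((R - 1 : ℕ) : ℝ)) = (R : ℝ) - 1 := by
          rw [Nat.cast_sub (by omega)]; simp
        rw [← h3]
        exact_mod_cast hmain
      have hRk : (0 : ℝ) < (R : ℝ) ^ k := by positivity
      have h6 : (Z : ℝ) ≤ (1 - 1 / (R : ℝ)) ^ k * Fintype.card (Fin (2 ^ l) → Fin R) := by
        rw [← mul_le_mul_iff_left₀ hRk]
        refine hmain'.trans (le_of_eq ?_)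
        have h7 : (1 - 1 / (R : ℝ)) ^ k * (R : ℝ) ^ k = ((R : ℝ) - 1) ^ k := by
          rw [← mul_pow]
          congr 1
          field_simp
        rw [← h7]
        ring
      refine h6.trans (mul_le_mul_of_nonneg_right ?_ (Nat.cast_nonneg _))
      have hnn : 0 ≤ (1 - 1 / (R : ℝ)) := by
        rw [sub_nonneg, div_le_one hR0]
        exact_mod_cast (by omega : 1 ≤ R)
      have hle1 : (1 - 1 / (R : ℝ)) ≤ 1 := by
        rw [sub_le_self_iff]; positivity
      calc (1 - 1 / (R : ℝ)) ^ k ≤ (1 - 1 / (R : ℝ)) ^ (R * l) :=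
            pow_le_pow_of_le_one hnn hle1 hgl
        _ = ((1 - 1 / (R : ℝ)) ^ R) ^ l := by rw [pow_mul]
        _ ≤ (Real.exp (-1)) ^ l := by
            apply pow_le_pow_left₀ (pow_nonneg hnn _)
            apply Real.one_sub_div_pow_le_exp_neg
            exact_mod_cast (by omega : 1 ≤ R)
        _ = Real.exp (-(l : ℝ)) := by
            rw [← Real.exp_nat_mul]; congr 1; ring
    have hcardpos : (0 : ℝ) < Fintype.card (Fin (2 ^ l) → Fin R) := by
      have : Nonempty (Fin (2 ^ l) → Fin R) := ⟨fun _ => ⟨0, by omega⟩⟩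
      exact_mod_cast Fintype.card_pos
    calc ∑ x ∈ (range (2 ^ l)).filter (fun x => (2 * G) ^ 8 ≤ x ∧ x + G ≤ 2 ^ l),
        ((univ.filter (fun ω : Fin (2 ^ l) → Fin R =>
          ∀ n ∈ rough G x, ¬ hit g (F ω n))).card : ℝ)
        ≤ ∑ x ∈ (range (2 ^ l)).filter (fun x => (2 * G) ^ 8 ≤ x ∧ x + G ≤ 2 ^ l),
          Real.exp (-(l : ℝ)) * Fintype.card (Fin (2 ^ l) → Fin R) := Finset.sum_le_sum hbound
      _ ≤ (2 : ℝ) ^ l * (Real.exp (-(l : ℝ)) * Fintype.card (Fin (2 ^ l) → Fin R)) := by
          rw [Finset.sum_const, nsmul_eq_mul]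
          apply mul_le_mul_of_nonneg_right _ (by positivity)
          have := (Finset.card_filter_le (range (2 ^ l)) (fun x => (2 * G) ^ 8 ≤ x ∧ x + G ≤ 2 ^ l))
          rw [card_range] at this
          exact_mod_cast this
      _ < 1 * Fintype.card (Fin (2 ^ l) → Fin R) := by
          rw [← mul_assoc]
          apply mul_lt_mul_of_pos_right _ hcardpos
          rw [Real.exp_neg, ← div_eq_mul_inv, div_lt_one (Real.exp_pos _)]
          have h8 : Real.exp (l : ℝ) = (Real.exp 1) ^ l := by
            rw [← Real.exp_nat_mul]; congr 1; ring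
          rw [h8]
          apply pow_lt_pow_left₀ _ (by norm_num) (by omega)
          have := Real.exp_one_gt_d9
          linarith
      _ = _ := one_mul _
  obtain ⟨ω, hω⟩ := key
  refine ⟨{n | hit g (F ω n)}, ?_, ?_⟩
  · intro b hb hpos hlt hgp
    by_contra hne
    obtain ⟨A, B, C, hC, hj⟩ := quad_F ω m b hpos hlt (by omega) hgp hne
    apply hg1 A B C hC
    intro j hjm
    rw [hj j hjm]
    refine ⟨by positivity, ?_⟩
    rw [Int.toNat_natCast]
    exact hb j hjm
  · intro x hx1 hx2
    have hx3 : x ∈ (range (2 ^ l)).filter (fun x => (2 * G) ^ 8 ≤ x ∧ x + G ≤ 2 ^ l) := by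
      rw [mem_filter, mem_range]
      exact ⟨by omega, hx1, hx2⟩
    have h3 := hω x hx3
    rw [mem_filter] at h3
    push Not at h3
    obtain ⟨n, hn1, hn2⟩ := h3 (mem_univ _)
    unfold rough at hn1
    obtain ⟨hn3, -⟩ := mem_filter.1 hn1
    obtain ⟨hn4, hn5⟩ := mem_Ico.1 hn3
    exact ⟨n, hn2, hn4, hn5⟩

end Helper84K9.GP
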